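import Pool.Agent.W425.SI.Final
import Pool.Agent.W425.SV.Final

set_option autoImplicit false

/-! Ideals generated by polynomials with very general coefficients at the vertices. -/

namespace Pool.Agent.W425.SI

open MvPolynomial Pool.Agent.H628R4.TZ Pool.Agent.H628R4.TP Pool.Agent.W425.SM Pool.Agent.W425.SG

variable {r k N : ℕ}

/-- `u` lies in the convex hull of the exponents `w_j` with `π j = i`. -/
def HullAt (π : Fin r → Fin k) (w : Fin r → Fin N → ℕ) (i : Fin k) (u : Fin N →₀ ℕ) : Prop :=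
  ∃ l : Fin r → ℝ, (∀ j, 0 ≤ l j) ∧ (∀ j, π j ≠ i → l j = 0) ∧ ∑ j, l j = 1 ∧
    ∀ m, ∑ j, l j * (w j m : ℝ) = (u m : ℝ)

/-- The polynomial `∑ y_i h_i`. -/
noncomputable def cayH {F : Type} [Field F] (h : Fin k → MvPolynomial (Fin N) F) :
    MvPolynomial (Fin (k + N)) F :=
  ∑ i, X (Fin.castAdd N i) * rename (Fin.natAdd k) (h i)

lemma univ_add (f g : Fin k → MvPolynomial (Fin N) ℂ) :
    Pool.Agent.W574.HS.univ (fun i => f i + g i) =
      Pool.Agent.W574.HS.univ f + Pool.Agent.W574.HS.univ g := by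
  unfold Pool.Agent.W574.HS.univ
  rw [← Finset.sum_add_distrib]
  refine Finset.sum_congr rfl fun i _ => ?_
  rw [map_add, mul_add]

lemma rename_univ_map {F : Type} [Field F] [Algebra F ℂ] (h : Fin k → MvPolynomial (Fin N) F) :
    rename (finSumFinEquiv : Fin k ⊕ Fin N ≃ Fin (k + N))
      (Pool.Agent.W574.HS.univ (fun i => map (algebraMap F ℂ) (h i))) =
      map (algebraMap F ℂ) (cayH h) := by
  unfold Pool.Agent.W574.HS.univ cayH
  rw [map_sum, map_sum]
  refine Finset.sum_congr rfl fun i _ => ?_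
  rw [map_mul, map_mul, rename_X, rename_rename, map_X, finSumFinEquiv_apply_left]
  congr 1
  have h1 : ((finSumFinEquiv : Fin k ⊕ Fin N ≃ Fin (k + N)) ∘ Sum.inr) = Fin.natAdd k := by
    funext l
    simp
  rw [h1, map_rename]

lemma cayH_hull {F : Type} [Field F] (π : Fin r → Fin k) (w : Fin r → Fin N → ℕ)
    (h : Fin k → MvPolynomial (Fin N) F) (hh : ∀ i, ∀ u ∈ (h i).support, HullAt π w i u) :
    ∀ u ∈ (cayH h).support, SV.Hull (cay π w) u := by
  classical
  intro u hu
  unfold cayH at hu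
  have h1 := MvPolynomial.support_sum hu
  rw [Finset.mem_biUnion] at h1
  obtain ⟨i, -, hi⟩ := h1
  rw [support_X_mul, Finset.mem_map] at hi
  obtain ⟨u1, hu1, rfl⟩ := hi
  rw [support_rename_of_injective (Fin.natAdd_injective N k), Finset.mem_image] at hu1
  obtain ⟨u2, hu2, rfl⟩ := hu1
  obtain ⟨l, hl0, hl1, hl2, hl3⟩ := hh i u2 hu2
  refine ⟨l, hl0, hl2, fun m => ?_⟩
  refine Fin.addCases (fun i' => ?_) (fun m' => ?_) m
  · have h3 : (Finsupp.mapDomain (Fin.natAdd k) u2 : Fin (k + N) →₀ ℕ) (Fin.castAdd N i') = 0 := by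
      rw [Finsupp.mapDomain_of_notMem_range]
      rintro ⟨x, hx⟩
      have := congrArg Fin.val hx
      simp at this
      omega
    simp only [cay, Fin.append_left, addLeftEmbedding_apply, Finsupp.add_apply, h3, add_zero]
    by_cases hii : i = i'
    · subst hii
      have h4 : ∀ j, l j * (((Pi.single (π j) 1 : Fin k → ℕ) i : ℕ) : ℝ) = l j := by
        intro j
        by_cases hj : π j = i
        · rw [hj, Pi.single_eq_same]; simp
        · rw [hl1 j hj]; simp
      rw [Finset.sum_congr rfl fun j _ => h4 j, hl2]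
      simp
    · have h4 : ∀ j, l j * (((Pi.single (π j) 1 : Fin k → ℕ) i' : ℕ) : ℝ) = 0 := by
        intro j
        by_cases hj : π j = i
        · rw [hj, Pi.single_eq_of_ne (fun h => hii h.symm)]; simp
        · rw [hl1 j hj]; simp
      rw [Finset.sum_congr rfl fun j _ => h4 j, Finset.sum_const_zero]
      rw [Finsupp.single_eq_of_ne]
      · simp
      · intro h
        exact hii (Fin.castAdd_injective k N h).symm
  · have h3 : (Finsupp.mapDomain (Fin.natAdd k) u2 : Fin (k + N) →₀ ℕ) (Fin.natAdd k m') = u2 m' :=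
      Finsupp.mapDomain_apply (Fin.natAdd_injective N k) u2 m'
    simp only [cay, Fin.append_right, addLeftEmbedding_apply, Finsupp.add_apply, h3]
    rw [Finsupp.single_eq_of_ne]
    · simpa using hl3 m'
    · intro h
      have := congrArg Fin.val h
      simp at this
      omega

lemma scale_univ (f : Fin k → MvPolynomial (Fin N) ℂ) (c : Fin k → ℂ) (t : Fin N → ℂ) :
    C 1 * aeval (fun m => C (Fin.append c t m) * X m)
      (rename (finSumFinEquiv : Fin k ⊕ Fin N ≃ Fin (k + N)) (Pool.Agent.W574.HS.univ f)) =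
      rename (finSumFinEquiv : Fin k ⊕ Fin N ≃ Fin (k + N))
        (Pool.Agent.W574.HS.univ (fun i => C (c i) * aeval (fun l => C (t l) * X l) (f i))) := by
  unfold Pool.Agent.W574.HS.univ
  rw [map_one, one_mul, map_sum, map_sum, map_sum]
  refine Finset.sum_congr rfl fun i _ => ?_
  simp only [map_mul, rename_X, aeval_X, rename_rename, rename_C, finSumFinEquiv_apply_left,
    Fin.append_left]
  have h1 : aeval (fun m => C (Fin.append c t m) * X m : Fin (k + N) → MvPolynomial (Fin (k + N)) ℂ)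
      (rename ((finSumFinEquiv : Fin k ⊕ Fin N ≃ Fin (k + N)) ∘ Sum.inr) (f i)) =
      rename ((finSumFinEquiv : Fin k ⊕ Fin N ≃ Fin (k + N)) ∘ Sum.inr)
        (aeval (fun l => C (t l) * X l) (f i)) := by
    rw [aeval_rename]
    have h2 : ((rename ((finSumFinEquiv : Fin k ⊕ Fin N ≃ Fin (k + N)) ∘ Sum.inr)).comp
        (aeval (fun l => C (t l) * X l : Fin N → MvPolynomial (Fin N) ℂ)) :
        MvPolynomial (Fin N) ℂ →ₐ[ℂ] MvPolynomial (Fin (k + N)) ℂ) =
        aeval ((fun m => C (Fin.append c t m) * X m : Fin (k + N) → MvPolynomial (Fin (k + N)) ℂ) ∘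
          ((finSumFinEquiv : Fin k ⊕ Fin N ≃ Fin (k + N)) ∘ Sum.inr)) := by
      refine MvPolynomial.algHom_ext fun l => ?_
      simp
    have h3 := congrArg (fun φ => φ (f i)) h2
    exact h3.symm
  rw [h1]
  ring

open Polynomial in
/-- The theorem for ideals, with arbitrary coefficients besides those at the vertices. -/
theorem finalIdealH {F : Type} [Field F] [Algebra F ℂ] (hr : 1 ≤ r) (π : Fin r → Fin k)
    (w : Fin r → Fin N → ℕ) (a : Fin r → ℂ) (hw : Function.Injective fun j => (π j, w j))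
    (ha : AlgebraicIndependent F a) (h : Fin k → MvPolynomial (Fin N) F)
    (hh : ∀ i, ∀ u ∈ (h i).support, HullAt π w i u)
    (f : Fin k → MvPolynomial (Fin N) ℂ) (c : Fin k → ℂ) (t : Fin N → ℂ) (hc : ∀ i, c i ≠ 0)
    (ht : ∀ l, t l ≠ 0)
    (hf : ∀ i, MvPolynomial.C (c i) *
      MvPolynomial.aeval (fun l => MvPolynomial.C (t l) * MvPolynomial.X l) (f i) =
      gens π w a i + MvPolynomial.map (algebraMap F ℂ) (h i))
    (θ : Fin r → ℝ) (hθ : LinearIndependent ℚ θ) (R : SmoothFan (k + N))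
    (hR : Principal (cay π w) R) (b : F[X])
    (hb : Pool.Agent.W574.SM.IsFunctionalEq f (b.map (algebraMap F ℂ))) :
    ∃ P : ℂ[X], algebraMap ℂ[X] (RatFunc ℂ) (b.map (algebraMap F ℂ)) * topZetaIdeal π w θ R =
      algebraMap ℂ[X] (RatFunc ℂ) P := by
  have h1 := Pool.Agent.W366.SI.taskI1 f _ hb
  have h2 := Pool.Agent.W578.SI.taskI2.1 (finSumFinEquiv : Fin k ⊕ Fin N ≃ Fin (k + N)) _ _ h1
  have h3 := Pool.Agent.W578.SI.taskI2.2.1 _ _ 1 (Fin.append c t) one_ne_zero (fun m => by
    refine Fin.addCases (fun i => ?_) (fun l => ?_) m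
    · simpa using hc i
    · simpa using ht l) h2
  rw [scale_univ, funext hf, univ_add, map_add, rename_univ, rename_univ_map] at h3
  have h4 : ((Polynomial.X + 1) * b.map (algebraMap F ℂ) : ℂ[X]) =
      ((Polynomial.X + 1) * b : F[X]).map (algebraMap F ℂ) := by
    simp [Polynomial.map_mul]
  rw [h4] at h3
  obtain ⟨P, hP⟩ := SV.finalGlobal hr (cay π w) a (cay_inj hw) (cay_ne_zero π w) ha (cayH h)
    (cayH_hull π w h hh) θ hθ R hR _ h3
  refine ⟨P, ?_⟩
  rw [← hP, ← h4, map_mul, topZetaIdeal]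
  have h5 : algebraMap ℂ[X] (RatFunc ℂ) (Polynomial.X + 1) = RatFunc.X + 1 := by
    rw [map_add, map_one, RatFunc.algebraMap_X]
  rw [h5]
  ring

end Pool.Agent.W425.SI
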