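import Pool.Agent.W574.HS.Conv
import Pool.Agent.W425.SG.Defs
import Pool.Agent.H628R4.TP.LocDefs

set_option autoImplicit false

/-! Ideals generated by sparse polynomials: definitions and statements of the parts. -/

namespace Pool.Agent.W425.SI

open MvPolynomial Pool.Agent.H628R4.TP

/-- The coefficients `a_j ≠ 0` are generic up to the action of the torus: the products
`∏ a_j ^ c_j`, for the integral affine relations `c` between the exponents (`∑ c_j = 0`,
`∑ c_j v_j = 0`), are linearly independent over `ℚ`. -/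
def TorusGeneric {r N : ℕ} (v : Fin r → Fin N → ℕ) (a : Fin r → ℂ) : Prop :=
  (∀ j, a j ≠ 0) ∧ LinearIndependent ℚ
    (fun c : {c : Fin r → ℤ // ∑ j, c j = 0 ∧ ∀ i, ∑ j, c j * (v j i : ℤ) = 0} =>
      ∏ j, a j ^ (c.1 j))

/-- Part I1: the other direction of Mustata's theorem. -/
def TaskI1 : Prop := ∀ {σ ι : Type} [Fintype ι] [DecidableEq ι] [DecidableEq σ]
  (f : ι → MvPolynomial σ ℂ) (b : Polynomial ℂ), Pool.Agent.W574.SM.IsFunctionalEq f b →
  IsBFunction (Pool.Agent.W574.HS.univ f) ((Polynomial.X + 1) * b)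

/-- Part I2: change of variables. -/
def TaskI2 : Prop :=
  (∀ {σ τ : Type} (e : σ ≃ τ) (f : MvPolynomial σ ℂ) (b : Polynomial ℂ), IsBFunction f b →
    IsBFunction (rename e f) b) ∧
  (∀ {σ : Type} [Fintype σ] (f : MvPolynomial σ ℂ) (b : Polynomial ℂ) (c : ℂ) (t : σ → ℂ), c ≠ 0 →
    (∀ i, t i ≠ 0) → IsBFunction f b → IsBFunction (C c * aeval (fun i => C (t i) * X i) f) b) ∧
  (∀ {σ : Type} [Fintype σ] (f : MvPolynomial σ ℂ) (b : Polynomial ℂ) (c : ℂ) (t : σ → ℂ), c ≠ 0 →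
    (∀ i, t i ≠ 0) → IsLocalBFunction f b →
    IsLocalBFunction (C c * aeval (fun i => C (t i) * X i) f) b)

/-- Part I3: a very general point of the torus orbit. -/
def TaskI3 : Prop := ∀ {r N : ℕ} (v : Fin r → Fin N → ℕ) (a : Fin r → ℂ), TorusGeneric v a →
  ∃ (c : ℂ) (t : Fin N → ℂ), c ≠ 0 ∧ (∀ i, t i ≠ 0) ∧
    AlgebraicIndependent ℚ (fun j => c * (∏ i, t i ^ v j i) * a j)

end Pool.Agent.W425.SI
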