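import Pool.Agent.W425.SG.Final
import Pool.Agent.W655.SI.I3
import Pool.Agent.W578.SI.Scale
import Pool.Agent.W366.SI.I1

set_option autoImplicit false

/-! Ideals generated by sparse polynomials: the final theorem. -/

namespace Pool.Agent.W425.SI

open MvPolynomial Pool.Agent.H628R4.TZ Pool.Agent.H628R4.TP Pool.Agent.W425.SM Pool.Agent.W425.SG

variable {r k N : ℕ}

/-- The generators `f_i = ∑_{π j = i} a_j x ^ (w j)` of the ideal, `i < k`. -/
noncomputable def gens (π : Fin r → Fin k) (w : Fin r → Fin N → ℕ) (a : Fin r → ℂ) (i : Fin k) :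
    MvPolynomial (Fin N) ℂ :=
  ∑ j with π j = i, C (a j) * ∏ l, X l ^ w j l

/-- The exponent of the monomial `y_(π j) x ^ (w j)`. -/
def cay (π : Fin r → Fin k) (w : Fin r → Fin N → ℕ) (j : Fin r) : Fin (k + N) → ℕ :=
  Fin.append (Pi.single (π j) 1) (w j)

/-- The topological zeta function of the ideal: `Z_I(s) = (s + 1) Z_g(s)`. -/
noncomputable def topZetaIdeal (π : Fin r → Fin k) (w : Fin r → Fin N → ℕ) (θ : Fin r → ℝ)
    (R : SmoothFan (k + N)) : RatFunc ℂ :=
  (RatFunc.X + 1) * topZetaGen (cay π w) θ R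

lemma rename_univ (π : Fin r → Fin k) (w : Fin r → Fin N → ℕ) (a : Fin r → ℂ) :
    rename (finSumFinEquiv : Fin k ⊕ Fin N ≃ Fin (k + N))
      (Pool.Agent.W574.HS.univ (gens π w a)) = sparse (cay π w) a := by
  classical
  unfold Pool.Agent.W574.HS.univ gens sparse
  rw [map_sum]
  have h1 : ∀ i : Fin k, rename (finSumFinEquiv : Fin k ⊕ Fin N ≃ Fin (k + N))
      (X (Sum.inl i) * rename Sum.inr
        (∑ j with π j = i, C (a j) * ∏ l, X l ^ w j l : MvPolynomial (Fin N) ℂ)) =
      ∑ j with π j = i, C (a j) * ∏ m, X m ^ cay π w j m := by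
    intro i
    rw [map_mul, rename_X, rename_rename, map_sum, Finset.mul_sum]
    refine Finset.sum_congr rfl fun j hj => ?_
    have hj' : π j = i := (Finset.mem_filter.1 hj).2
    rw [Fin.prod_univ_add, map_mul, rename_C, map_prod, finSumFinEquiv_apply_left]
    have h2 : (∏ i', X (Fin.castAdd N i') ^ cay π w j (Fin.castAdd N i') :
        MvPolynomial (Fin (k + N)) ℂ) = X (Fin.castAdd N i) := by
      rw [Finset.prod_eq_single i]
      · simp [cay, hj']
      · intro i' _ hi'
        simp [cay, hj', hi']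
      · intro h; exact absurd (Finset.mem_univ _) h
    rw [h2]
    have h3 : ∀ l : Fin N, rename ((finSumFinEquiv : Fin k ⊕ Fin N ≃ Fin (k + N)) ∘ Sum.inr)
        (X l ^ w j l : MvPolynomial (Fin N) ℂ) =
        X (Fin.natAdd k l) ^ cay π w j (Fin.natAdd k l) := by
      intro l
      rw [map_pow, rename_X]
      simp [cay]
    rw [Finset.prod_congr rfl fun l _ => h3 l]
    ring
  rw [Finset.sum_congr rfl fun i _ => h1 i]
  exact Finset.sum_fiberwise _ _ _

lemma cay_inj {π : Fin r → Fin k} {w : Fin r → Fin N → ℕ}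
    (h : Function.Injective fun j => (π j, w j)) : Function.Injective (cay π w) := by
  intro j j' hj
  apply h
  have h1 : ∀ i, cay π w j (Fin.castAdd N i) = cay π w j' (Fin.castAdd N i) := fun i => by rw [hj]
  have h2 : ∀ l, cay π w j (Fin.natAdd k l) = cay π w j' (Fin.natAdd k l) := fun l => by rw [hj]
  refine Prod.ext ?_ ?_
  · have h3 := h1 (π j)
    simp only [cay, Fin.append_left, Pi.single_eq_same] at h3
    by_contra hne
    rw [Pi.single_eq_of_ne hne] at h3
    exact one_ne_zero h3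
  · funext l
    have h3 := h2 l
    simpa [cay] using h3

lemma cay_ne_zero (π : Fin r → Fin k) (w : Fin r → Fin N → ℕ) (j : Fin r) : cay π w j ≠ 0 := by
  intro h
  have h1 := congrFun h (Fin.castAdd N (π j))
  simp [cay] at h1

lemma scale_sparse (v : Fin r → Fin N → ℕ) (a : Fin r → ℂ) (c : ℂ) (t : Fin N → ℂ) :
    C c * aeval (fun i => C (t i) * X i) (sparse v a) =
      sparse v (fun j => c * (∏ i, t i ^ v j i) * a j) := by
  unfold sparse
  rw [map_sum, Finset.mul_sum]
  refine Finset.sum_congr rfl fun j _ => ?_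
  rw [map_mul, map_prod, aeval_C]
  simp only [map_pow, aeval_X, mul_pow, Finset.prod_mul_distrib, map_mul, map_prod,
    algebraMap_eq]
  ring

open Polynomial in
/-- The theorem for ideals. -/
theorem finalIdeal (hr : 1 ≤ r) (π : Fin r → Fin k) (w : Fin r → Fin N → ℕ) (a : Fin r → ℂ)
    (hw : Function.Injective fun j => (π j, w j)) (ha : TorusGeneric (cay π w) a)
    (θ : Fin r → ℝ) (hθ : LinearIndependent ℚ θ) (R : SmoothFan (k + N))
    (hR : Principal (cay π w) R) (b : ℚ[X])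
    (hb : Pool.Agent.W574.SM.IsFunctionalEq (gens π w a) (b.map (algebraMap ℚ ℂ))) :
    ∃ P : ℂ[X], algebraMap ℂ[X] (RatFunc ℂ) (b.map (algebraMap ℚ ℂ)) * topZetaIdeal π w θ R =
      algebraMap ℂ[X] (RatFunc ℂ) P := by
  have h1 := Pool.Agent.W366.SI.taskI1 (gens π w a) _ hb
  have h2 := Pool.Agent.W578.SI.taskI2.1 (finSumFinEquiv : Fin k ⊕ Fin N ≃ Fin (k + N)) _ _ h1
  rw [rename_univ] at h2
  obtain ⟨c, t, hc, ht, hct⟩ := Pool.Agent.W655.SI.taskI3 (cay π w) a ha
  have h3 := Pool.Agent.W578.SI.taskI2.2.1 (sparse (cay π w) a) _ c t hc ht h2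
  rw [scale_sparse] at h3
  have h4 : ((Polynomial.X + 1) * b.map (algebraMap ℚ ℂ) : ℂ[X]) =
      ((Polynomial.X + 1) * b : ℚ[X]).map (algebraMap ℚ ℂ) := by
    simp [Polynomial.map_mul]
  rw [h4] at h3
  obtain ⟨P, hP⟩ := SG.finalGlobal hr (cay π w) _ (cay_inj hw) (cay_ne_zero π w) hct θ hθ R hR _ h3
  refine ⟨P, ?_⟩
  rw [← hP, ← h4, map_mul, topZetaIdeal]
  have h5 : algebraMap ℂ[X] (RatFunc ℂ) (Polynomial.X + 1) = RatFunc.X + 1 := by
    rw [map_add, map_one, RatFunc.algebraMap_X]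
  rw [h5]
  ring

end Pool.Agent.W425.SI
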